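import Pool.Agent.K3h56.E2.Stm
import Pool.Agent.H484R2.Zeta
import Pool.Agent.R426.QC.Ep

/-!
# Leading terms at `s = 0` of Euler products with finitely many factors removed

Bricks LIM and LIM1 for `Pool.Agent.K3h56.E2.Stm`.
-/

set_option autoImplicit false

open NumberField IsDedekindDomain Filter Topology

noncomputable section

namespace Pool.Agent.K3h66.E2

open Pool.Agent.K3h30.RS Pool.Agent.K3h56.E2

/-- splitting off a finite set -/
theorem hasProd_split {V : Type} (S : Finset V) (f : V → ℂ) (L : ℂ)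
    (h : HasProd (fun v : {v // v ∉ S} => f v) L) : HasProd f ((∏ v ∈ S, f v) * L) := by
  have h1 : HasProd (f ∘ ((↑) : ((S : Set V)) → V)) (∏ v ∈ S, f v) := S.hasProd f
  have h2 : HasProd (f ∘ ((↑) : (((S : Set V)ᶜ : Set V)) → V)) L := h
  exact h1.mul_compl h2

theorem deriv_pow (a : ℕ) (ha : 2 ≤ a) (c s₀ : ℂ) :
    HasDerivAt (fun s : ℂ => 1 - c * (a : ℂ) ^ (-s)) (c * ((a : ℂ) ^ (-s₀) * Complex.log a)) s₀ := by
  have ha0 : (a : ℂ) ≠ 0 := by
    have : a ≠ 0 := by omega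
    exact_mod_cast this
  have h1 : HasDerivAt (fun s : ℂ => -s) (-1) s₀ := (hasDerivAt_id s₀).neg
  have h2 := h1.const_cpow (c := (a : ℂ)) (Or.inl ha0)
  have h3 := (h2.const_mul c).const_sub 1
  have e : -(c * ((a : ℂ) ^ (-s₀) * Complex.log a * -1)) =
      c * ((a : ℂ) ^ (-s₀) * Complex.log a) := by ring
  rwa [e] at h3

theorem fac_ne (a : ℕ) (ha : 2 ≤ a) (c s : ℂ) (hc : ‖c‖ ≤ 1) (hs : 1 < s.re) :
    1 - c * (a : ℂ) ^ (-s) ≠ 0 := by
  intro h
  have h1 : c * (a : ℂ) ^ (-s) = 1 := by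
    rw [sub_eq_zero] at h
    exact h.symm
  have h2 : ‖c * (a : ℂ) ^ (-s)‖ = 1 := by rw [h1, norm_one]
  rw [norm_mul, Complex.norm_natCast_cpow_of_pos (by omega), Complex.neg_re] at h2
  have h3 : (a : ℝ) ^ (-s.re) < 1 :=
    Real.rpow_lt_one_of_one_lt_of_neg (by exact_mod_cast (by omega : 1 < a)) (by linarith)
  have h4 : 0 ≤ (a : ℝ) ^ (-s.re) := by positivity
  nlinarith [norm_nonneg c]

theorem two_le_norm {K : Type} [Field K] [NumberField K] (v : HeightOneSpectrum (𝓞 K)) :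
    2 ≤ Ideal.absNorm v.asIdeal := by
  have h0 : Ideal.absNorm v.asIdeal ≠ 0 := by
    rw [Ne, Ideal.absNorm_eq_zero_iff]
    exact v.ne_bot
  have h1 : Ideal.absNorm v.asIdeal ≠ 1 := by
    rw [Ne, Ideal.absNorm_eq_one_iff]
    exact v.isPrime.ne_top
  omega

/-- the identity theorem off `1` -/
theorem ident (Z₁ Z₂ L P : ℂ → ℂ) (h₁ : ∀ s ≠ 1, DifferentiableAt ℂ Z₁ s)
    (h₂ : ∀ s ≠ 1, DifferentiableAt ℂ Z₂ s) (hL : DifferentiableOn ℂ L {1}ᶜ)
    (hP : Differentiable ℂ P) (h : ∀ s : ℂ, 1 < s.re → L s * Z₁ s = Z₂ s * P s) {s : ℂ}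
    (hs : s ≠ 1) : L s * Z₁ s = Z₂ s * P s := by
  have hU : IsOpen ({1}ᶜ : Set ℂ) := isOpen_compl_singleton
  have hpre : IsPreconnected ({1}ᶜ : Set ℂ) :=
    (isConnected_compl_singleton_of_one_lt_rank
      (Complex.rank_real_complex ▸ Nat.one_lt_ofNat) _).isPreconnected
  have hf : AnalyticOnNhd ℂ (fun s => L s * Z₁ s) ({1}ᶜ : Set ℂ) := by
    refine DifferentiableOn.analyticOnNhd (fun z hz => ?_) hU
    exact ((hL.differentiableAt (hU.mem_nhds hz)).mul (h₁ z hz)).differentiableWithinAt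
  have hg : AnalyticOnNhd ℂ (fun s => Z₂ s * P s) ({1}ᶜ : Set ℂ) := by
    refine DifferentiableOn.analyticOnNhd (fun z hz => ?_) hU
    exact ((h₂ z hz).mul (hP z)).differentiableWithinAt
  have h2 : (fun s => L s * Z₁ s) =ᶠ[𝓝 (2 : ℂ)] fun s => Z₂ s * P s := by
    have h1 : {z : ℂ | 1 < z.re} ∈ 𝓝 (2 : ℂ) :=
      (isOpen_lt continuous_const Complex.continuous_re).mem_nhds (by norm_num)
    filter_upwards [h1] with z hz
    exact h z hz
  exact hf.eqOn_of_preconnected_of_eventuallyEq hg hpre (by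
    show (2 : ℂ) ≠ 1
    norm_num) h2 hs

/-- the finite product at `0` -/
theorem lim_prod {V : Type} (S : Finset V) (N : V → ℕ) (hN : ∀ v, 2 ≤ N v) (c : V → ℤ) :
    Tendsto (fun s : ℂ => (s ^ (S.filter fun v => c v = 1).card)⁻¹ *
      ∏ v ∈ S, (1 - (c v : ℂ) * (N v : ℂ) ^ (-s))) (𝓝[≠] 0)
      (𝓝 ((∏ v ∈ S.filter fun v => c v = 1, Complex.log (N v)) *
        ∏ v ∈ S.filter fun v => ¬ c v = 1, (1 - (c v : ℂ)))) := by
  have e1 : ∀ s : ℂ, (s ^ (S.filter fun v => c v = 1).card)⁻¹ *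
      ∏ v ∈ S, (1 - (c v : ℂ) * (N v : ℂ) ^ (-s)) =
      ∏ v ∈ S, ((if c v = 1 then s⁻¹ else 1) * (1 - (c v : ℂ) * (N v : ℂ) ^ (-s))) := by
    intro s
    rw [Finset.prod_mul_distrib, Finset.prod_ite, Finset.prod_const, Finset.prod_const_one,
      mul_one, inv_pow]
  have e2 : (∏ v ∈ S.filter fun v => c v = 1, Complex.log (N v)) *
        ∏ v ∈ S.filter fun v => ¬ c v = 1, (1 - (c v : ℂ)) =
      ∏ v ∈ S, (if c v = 1 then Complex.log (N v) else 1 - (c v : ℂ)) := by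
    rw [Finset.prod_ite]
  rw [e2]
  simp_rw [e1]
  refine tendsto_finsetProd _ fun v _ => ?_
  by_cases hc : c v = 1
  · simp only [hc, if_true, Int.cast_one, one_mul]
    have h1 := (hasDerivAt_iff_tendsto_slope.1 (deriv_pow (N v) (hN v) 1 0))
    rw [one_mul, neg_zero, Complex.cpow_zero, one_mul] at h1
    refine h1.congr' ?_
    filter_upwards [self_mem_nhdsWithin] with s _
    simp only [slope_def_field, neg_zero, Complex.cpow_zero, sub_self, sub_zero, one_mul]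
    rw [div_eq_inv_mul]
  · simp only [if_neg hc, one_mul]
    have h1 := (deriv_pow (N v) (hN v) (c v) 0).continuousAt.tendsto
    rw [neg_zero, Complex.cpow_zero, mul_one] at h1
    exact h1.mono_left nhdsWithin_le_nhds

theorem diff_prod {V : Type} (S : Finset V) (N : V → ℕ) (hN : ∀ v, 2 ≤ N v) (c : V → ℤ) :
    Differentiable ℂ (fun s : ℂ => ∏ v ∈ S, (1 - (c v : ℂ) * (N v : ℂ) ^ (-s))) := by
  intro s
  refine DifferentiableAt.fun_finsetProd fun v _ => ?_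
  exact (deriv_pow (N v) (hN v) (c v) s).differentiableAt

/-- the Euler product of the zeta function -/
theorem zeta_hasProd (K : Type) [Field K] [NumberField K] {s : ℂ} (hs : 1 < s.re) :
    HasProd (fun v : HeightOneSpectrum (𝓞 K) => (1 - (Ideal.absNorm v.asIdeal : ℂ) ^ (-s))⁻¹)
      (dedekindZeta K s) := by
  have hs0 : -s ≠ 0 := by
    intro h
    rw [neg_eq_zero] at h
    rw [h] at hs
    norm_num at hs
  have h1 : HasSum (fun I : Ideal (𝓞 K) => (Ideal.absNorm I : ℂ) ^ (-s)) (dedekindZeta K s) := by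
    have h2 := Pool.Agent.H484R2.hasSum_ideals K hs
    rw [← Pool.Agent.H484R2.zeta_eq K hs] at h2
    refine (hasSum_subtype_iff_of_support_subset (s := {I : Ideal (𝓞 K) | I ≠ ⊥}) ?_).1 h2
    intro I hI h0
    apply hI
    change (Ideal.absNorm I : ℂ) ^ (-s) = 0
    rw [h0, Ideal.absNorm_bot, Nat.cast_zero, Complex.zero_cpow hs0]
  have hcm : Pool.Agent.R426.QC.CMI (fun I : Ideal (𝓞 K) => (Ideal.absNorm I : ℂ) ^ (-s)) :=
    { zero := by
        change (Ideal.absNorm (⊥ : Ideal (𝓞 K)) : ℂ) ^ (-s) = 0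
        rw [Ideal.absNorm_bot, Nat.cast_zero, Complex.zero_cpow hs0]
      one := by
        change (Ideal.absNorm (⊤ : Ideal (𝓞 K)) : ℂ) ^ (-s) = 1
        rw [Ideal.absNorm_top, Nat.cast_one, Complex.one_cpow]
      mul := fun I J => by
        change (Ideal.absNorm (I * J) : ℂ) ^ (-s) =
          (Ideal.absNorm I : ℂ) ^ (-s) * (Ideal.absNorm J : ℂ) ^ (-s)
        rw [map_mul, Nat.cast_mul, Complex.natCast_mul_natCast_cpow]
      summ := h1.summable }
  have h3 := Pool.Agent.R426.QC.hasProdI hcm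
  rwa [h1.tsum_eq] at h3

theorem card_pos (K : Type) [Field K] [NumberField K] : 1 ≤ Fintype.card (InfinitePlace K) :=
  Fintype.card_pos

theorem t_LIM : S_LIM := by
  intro hZ hE F K _ _ _ _ _ τ hq S L hL hprod hle
  obtain ⟨ZK, ⟨hK1, hK2⟩, qK, hqK, hKl⟩ := hZ K
  obtain ⟨ZF, ⟨hF1, hF2⟩, qF, hqF, hFl⟩ := hZ F
  set N : HeightOneSpectrum (𝓞 F) → ℕ := fun v => Ideal.absNorm v.asIdeal with hN
  have hN2 : ∀ v, 2 ≤ N v := two_le_norm
  set c : HeightOneSpectrum (𝓞 F) → ℤ := fun v => loc K v with hc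
  have hc1 : ∀ v, ‖(c v : ℂ)‖ ≤ 1 := by
    intro v
    change ‖((loc K v : ℤ) : ℂ)‖ ≤ 1
    unfold loc
    split_ifs <;> simp
  have hid : ∀ s : ℂ, s ≠ 1 → L s * ZF s = ZK s * ∏ v ∈ S, (1 - (c v : ℂ) * (N v : ℂ) ^ (-s)) := by
    intro s hs
    refine ident ZF ZK L _ hF1 hK1 hL (diff_prod S N hN2 c) (fun z hz => ?_) hs
    obtain ⟨h0, h1⟩ := hE F K τ hq z hz
    have h2 := hasProd_split S (fun v => (1 - ((loc K v : ℤ) : ℂ) *
      (Ideal.absNorm v.asIdeal : ℂ) ^ (-z))⁻¹) (L z) (hprod z hz)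
    have h3 : dedekindZeta K z / dedekindZeta F z =
        (∏ v ∈ S, (1 - (c v : ℂ) * (N v : ℂ) ^ (-z))⁻¹) * L z := h1.unique h2
    rw [hF2 z hz, hK2 z hz]
    rw [Finset.prod_inv_distrib, div_eq_iff h0] at h3
    rw [h3]
    have h4 : ∏ v ∈ S, (1 - (c v : ℂ) * (N v : ℂ) ^ (-z)) ≠ 0 :=
      Finset.prod_ne_zero_iff.2 fun v _ => fac_ne (N v) (hN2 v) _ z (hc1 v) hz
    field_simp
  have hRF : ((Units.regulator F : ℝ) : ℂ) ≠ 0 := by
    exact_mod_cast Units.regulator_ne_zero F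
  have hqF' : (qF : ℂ) ≠ 0 := by exact_mod_cast hqF
  have hlim := (hKl.mul (lim_prod S N hN2 c)).div hFl (mul_ne_zero hqF' hRF)
  refine ⟨qK / qF * ∏ v ∈ S.filter fun v => ¬ c v = 1, (1 - (c v : ℚ)), ?_⟩
  have hval : (qK : ℂ) * ((Units.regulator K : ℝ) : ℂ) *
      ((∏ v ∈ S.filter fun v => c v = 1, Complex.log (N v)) *
        ∏ v ∈ S.filter fun v => ¬ c v = 1, (1 - (c v : ℂ))) /
        ((qF : ℂ) * ((Units.regulator F : ℝ) : ℂ)) =
      (((qK / qF * ∏ v ∈ S.filter fun v => ¬ c v = 1, (1 - (c v : ℚ)) : ℚ)) : ℂ) *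
        ((Units.regulator K / Units.regulator F *
        ∏ v ∈ S.filter fun v => c v = 1, Real.log (N v) : ℝ) : ℂ) := by
    have e : ∀ v, Complex.log (N v) = ((Real.log (N v) : ℝ) : ℂ) := fun v =>
      (Complex.natCast_log).symm
    simp_rw [e]
    push_cast
    field_simp
  rw [hval] at hlim
  refine Tendsto.congr' ?_ hlim
  have hne : ∀ᶠ s : ℂ in 𝓝[≠] 0, (s ^ (Fintype.card (InfinitePlace F) - 1))⁻¹ * ZF s ≠ 0 :=
    hFl.eventually_ne (mul_ne_zero hqF' hRF)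
  have h1' : ∀ᶠ s : ℂ in 𝓝[≠] 0, s ≠ 1 :=
    (continuousAt_id.eventually_ne (by norm_num : (0 : ℂ) ≠ 1)).filter_mono nhdsWithin_le_nhds
  filter_upwards [self_mem_nhdsWithin, hne, h1'] with s hs0 hs1 hs2
  have hs0' : s ≠ 0 := hs0
  have hZF0 : ZF s ≠ 0 := right_ne_zero_of_mul hs1
  have hLs : L s = ZK s * (∏ v ∈ S, (1 - (c v : ℂ) * (N v : ℂ) ^ (-s))) / ZF s := by
    rw [eq_div_iff hZF0]
    exact hid s hs2
  have hcF := card_pos F
  have hexp : Fintype.card (InfinitePlace K) - 1 =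
      (Fintype.card (InfinitePlace K) - Fintype.card (InfinitePlace F)) +
        (Fintype.card (InfinitePlace F) - 1) := by omega
  simp only [Pi.div_apply]
  rw [hLs, hexp, pow_add, pow_add]
  change _ = (_ * s ^ (S.filter fun v => c v = 1).card)⁻¹ * _
  field_simp

theorem t_LIM1 : S_LIM1 := by
  intro hZ F _ _ S L hL hprod
  obtain ⟨ZF, ⟨hF1, hF2⟩, qF, hqF, hFl⟩ := hZ F
  set N : HeightOneSpectrum (𝓞 F) → ℕ := fun v => Ideal.absNorm v.asIdeal with hN
  have hN2 : ∀ v, 2 ≤ N v := two_le_norm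
  set c : HeightOneSpectrum (𝓞 F) → ℤ := fun _ => 1 with hc
  have hid : ∀ s : ℂ, s ≠ 1 → L s * 1 = ZF s * ∏ v ∈ S, (1 - (c v : ℂ) * (N v : ℂ) ^ (-s)) := by
    intro s hs
    refine ident (fun _ => 1) ZF L _ (fun _ _ => differentiableAt_const _) hF1 hL
      (diff_prod S N hN2 c) (fun z hz => ?_) hs
    have h2 := hasProd_split S (fun v : HeightOneSpectrum (𝓞 F) =>
      (1 - (Ideal.absNorm v.asIdeal : ℂ) ^ (-z))⁻¹) (L z) (hprod z hz)
    have h3 : dedekindZeta F z = (∏ v ∈ S, (1 - (N v : ℂ) ^ (-z))⁻¹) * L z :=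
      (zeta_hasProd F hz).unique h2
    rw [hF2 z hz, h3, Finset.prod_inv_distrib]
    have h4 : ∏ v ∈ S, (1 - (N v : ℂ) ^ (-z)) ≠ 0 :=
      Finset.prod_ne_zero_iff.2 fun v _ => by
        have := fac_ne (N v) (hN2 v) 1 z (by simp) hz
        rwa [one_mul] at this
    simp only [hc, Int.cast_one, one_mul, mul_one]
    field_simp
  refine ⟨qF, ?_⟩
  have hlim := hFl.mul (lim_prod S N hN2 c)
  have hfil : (S.filter fun v => c v = 1) = S := by
    rw [Finset.filter_true_of_mem]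
    intro v _
    rfl
  have hfil' : (S.filter fun v => ¬ c v = 1) = ∅ := by
    rw [Finset.filter_false_of_mem]
    intro v _ h
    exact h rfl
  rw [hfil, hfil', Finset.prod_empty, mul_one] at hlim
  have hval : (qF : ℂ) * ((Units.regulator F : ℝ) : ℂ) * (∏ v ∈ S, Complex.log (N v)) =
      (qF : ℂ) * ((Units.regulator F *
        ∏ v ∈ S, Real.log (Ideal.absNorm v.asIdeal) : ℝ) : ℂ) := by
    have e : ∀ v, Complex.log (N v) = ((Real.log (Ideal.absNorm v.asIdeal) : ℝ) : ℂ) := fun v =>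
      (Complex.natCast_log).symm
    simp_rw [e]
    push_cast
    ring
  rw [← hval]
  refine hlim.congr' ?_
  have h1' : ∀ᶠ s : ℂ in 𝓝[≠] 0, s ≠ 1 :=
    (continuousAt_id.eventually_ne (by norm_num : (0 : ℂ) ≠ 1)).filter_mono nhdsWithin_le_nhds
  filter_upwards [self_mem_nhdsWithin, h1'] with s hs0 hs2
  have hs0' : s ≠ 0 := hs0
  have hLs := hid s hs2
  rw [mul_one] at hLs
  rw [hLs, pow_add]
  field_simp

end Pool.Agent.K3h66.E2
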