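import Pool.Agent.K3h56.E2.Stm2
import Pool.Agent.K3h66.E2.Lim

/-!
# The leading term of `ζ_{F,S}(s)` at `s = 0`, exact form (brick LIM1X)
-/

set_option autoImplicit false

open NumberField IsDedekindDomain Filter Topology

noncomputable section

namespace Pool.Agent.K3h66.E2

open Pool.Agent.K3h30.RS Pool.Agent.K3h56.E2

theorem t_LIM1X : S_LIM1X := by
  intro hZ F _ _ S L hL hprod
  obtain ⟨ZF, ⟨hF1, hF2⟩, qF, hqF, hFl⟩ := hZ F
  set N : HeightOneSpectrum (𝓞 F) → ℕ := fun v => Ideal.absNorm v.asIdeal with hN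
  have hN2 : ∀ v, 2 ≤ N v := two_le_norm
  set c : HeightOneSpectrum (𝓞 F) → ℤ := fun _ => 1 with hc
  have hid : ∀ s : ℂ, s ≠ 1 → L s * 1 = ZF s * ∏ v ∈ S, (1 - (c v : ℂ) * (N v : ℂ) ^ (-s)) := by
    intro s hs
    refine ident (fun _ => 1) ZF L _ (fun _ _ => differentiableAt_const _) hF1 hL
      (diff_prod S N hN2 c) (fun z hz => ?_) hs
    have h2 := hasProd_split S (fun v : HeightOneSpectrum (𝓞 F) =>
      (1 - (Ideal.absNorm v.asIdeal : ℂ) ^ (-z))⁻¹) (L z) (hprod z hz)
    have h3 : dedekindZeta F z = (∏ v ∈ S, (1 - (N v : ℂ) ^ (-z))⁻¹) * L z :=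
      (zeta_hasProd F hz).unique h2
    rw [hF2 z hz, h3, Finset.prod_inv_distrib]
    have h4 : ∏ v ∈ S, (1 - (N v : ℂ) ^ (-z)) ≠ 0 :=
      Finset.prod_ne_zero_iff.2 fun v _ => by
        have := fac_ne (N v) (hN2 v) 1 z (by simp) hz
        rwa [one_mul] at this
    simp only [hc, Int.cast_one, one_mul, mul_one]
    field_simp
  have hlim := hFl.mul (lim_prod S N hN2 c)
  have hfil : (S.filter fun v => c v = 1) = S := by
    rw [Finset.filter_true_of_mem]
    intro v _
    rfl
  have hfil' : (S.filter fun v => ¬ c v = 1) = ∅ := by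
    rw [Finset.filter_false_of_mem]
    intro v _ h
    exact h rfl
  rw [hfil, hfil', Finset.prod_empty, mul_one] at hlim
  refine ⟨qF * Units.regulator F * ∏ v ∈ S, Real.log (Ideal.absNorm v.asIdeal), ?_, ?_⟩
  · have hval : ((qF * Units.regulator F : ℝ) : ℂ) * (∏ v ∈ S, Complex.log (N v)) =
        ((qF * Units.regulator F *
          ∏ v ∈ S, Real.log (Ideal.absNorm v.asIdeal) : ℝ) : ℂ) := by
      have e : ∀ v, Complex.log (N v) = ((Real.log (Ideal.absNorm v.asIdeal) : ℝ) : ℂ) := fun v =>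
        (Complex.natCast_log).symm
      simp_rw [e]
      push_cast
      ring
    rw [← hval]
    refine hlim.congr' ?_
    have h1' : ∀ᶠ s : ℂ in 𝓝[≠] 0, s ≠ 1 :=
      (continuousAt_id.eventually_ne (by norm_num : (0 : ℂ) ≠ 1)).filter_mono nhdsWithin_le_nhds
    filter_upwards [self_mem_nhdsWithin, h1'] with s hs0 hs2
    have hs0' : s ≠ 0 := hs0
    have hLs := hid s hs2
    rw [mul_one] at hLs
    have hcF := card_pos F
    have hexp : Fintype.card (InfinitePlace F) + S.card - 1 =
        (Fintype.card (InfinitePlace F) - 1) + S.card := by omega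
    rw [hLs, hexp, pow_add]
    field_simp
  · have hR : 0 < Units.regulator F := Units.regulator_pos F
    have hP : 0 < ∏ v ∈ S, Real.log (Ideal.absNorm v.asIdeal) := by
      refine Finset.prod_pos fun v _ => Real.log_pos ?_
      have := two_le_norm v
      exact_mod_cast this
    have hw : (Units.torsionOrder F : ℝ) ≠ 0 := by
      exact_mod_cast (Units.torsionOrder_ne_zero F)
    rw [abs_mul, abs_mul, abs_of_pos hR, abs_of_pos hP, hqF]
    field_simp

end Pool.Agent.K3h66.E2
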